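import Mathlib
import Pool.Agent.H11.Selberg.Defs
import Pool.Agent.H11.SC6.PrimDef
import Pool.Agent.H30.WD.Str
import Pool.Agent.H42.HO.Fin

set_option autoImplicit false

namespace Pool.Agent.Results.MP_8e9775_nt.AsymptoticFails

open Pool.Agent.H11.Selberg

/-- Selberg's asymptotic `S_F(x) = log log x + O(1)` is false for some primitive `F`: there are a
primitive element `F` of the Selberg class and `c > 0` with `S_F(x) - log log x ≥ c (log x)^2` for
arbitrarily large `x`. -/
theorem result :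
    ∃ (a : ℕ → ℂ) (F : ℂ → ℂ), IsPrimitive a F ∧ ∃ c : ℝ, 0 < c ∧
      ∀ X : ℝ, ∃ x : ℝ, X ≤ x ∧ c * Real.log x ^ 2 ≤ S a x - Real.log (Real.log x) :=
  Pool.Agent.H30.WD.final_of_input Pool.Agent.H42.HO.input

end Pool.Agent.Results.MP_8e9775_nt.AsymptoticFails
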