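import Mathlib
import Pool.Agent.H11.Selberg.Defs
import Pool.Agent.H11.SC6.PrimDef
import Pool.Agent.H25.QE.Fin
import Pool.Agent.H25.QP.Prm8
import Pool.Agent.H25.QP.Cls8

set_option autoImplicit false

namespace Pool.Agent.Results.MP_8e9775_nt.ConductorAtMostEight

open Pool.Agent.H11.Selberg

/-- Let `F` be any element of the Selberg class, primitive or not, which satisfies a functional
equation of degree `2` whose conductor is an integer `N ≤ 8` (any Gamma factors; no assumption on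
the Euler factors).  Then either `F` has no pole at `s = 1` and `S_F(x) = log log x + O(1)`, or `F`
has a pole at `s = 1`, is not primitive, and `F(s) = ζ(s) L(s + iτ, χ)` with a primitive character
`χ` modulo `N`, non-principal unless `N = 1` and `τ = 0`.

So `S_F(x) = log log x + O(1)` for every primitive `F` of degree `2` and conductor `1, ..., 8`.
(At `N = 9` the dichotomy fails: `F(s) = L(s, χ)²`, `χ` modulo `3`, has no pole and
`S_F(x) = 4 log log x + O(1)`.) -/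
theorem result :
    ∀ (a : ℕ → ℂ) (F : ℂ → ℂ), IsSelberg a F →
    ∀ (Q : ℝ) (r : ℕ) (lam : Fin r → ℝ) (mu : Fin r → ℂ) (ε : ℂ),
    0 < Q → (∀ j, 0 < lam j) → (∀ j, 0 ≤ (mu j).re) → ‖ε‖ = 1 →
    (∀ s : ℂ, 0 < s.re → s.re < 1 →
      completed Q lam mu F s =
        ε * (starRingEnd ℂ) (completed Q lam mu F (1 - (starRingEnd ℂ) s))) →
    2 * ∑ j, lam j = 2 →
    ∀ N : ℕ, N ≤ 8 → (2 * Real.pi) ^ 2 * Q ^ 2 * ∏ j, (lam j) ^ (2 * lam j) = N →
    ((∃ G : ℂ → ℂ, Differentiable ℂ G ∧ ∀ s, s ≠ 1 → G s = F s) ∧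
      ∃ C : ℝ, ∀ x : ℝ, 2 ≤ x → |S a x - Real.log (Real.log x)| ≤ C) ∨
    ((¬ ∃ G : ℂ → ℂ, Differentiable ℂ G ∧ ∀ s, s ≠ 1 → G s = F s) ∧
      ¬ IsPrimitive a F ∧
      ∃ (_ : NeZero N) (χ : DirichletCharacter ℂ N) (τ : ℝ), χ.IsPrimitive ∧
        (χ ≠ 1 ∨ (N = 1 ∧ τ = 0)) ∧
        ∀ s : ℂ, 1 < s.re → F s = riemannZeta s * χ.LFunction (s + τ * Complex.I)) := by
  intro a F hS Q r lam mu ε hQ hlam hmu hε hfe hdeg N hN hcond
  by_cases hpole : ∃ G : ℂ → ℂ, Differentiable ℂ G ∧ ∀ s, s ≠ 1 → G s = F s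
  · left
    obtain ⟨G, hG, hGF⟩ := hpole
    exact ⟨⟨G, hG, hGF⟩,
      H25.QE.entire_eight a F G hS hG hGF Q r lam mu ε hQ hlam hmu hε hfe hdeg N hN hcond⟩
  · right
    exact ⟨hpole,
      H25.QP.pole_not_primitive8 a F hS hpole Q r lam mu ε hQ hlam hmu hε hfe hdeg N hN hcond,
      H25.QP.pole_factor8 a F hS hpole Q r lam mu ε hQ hlam hmu hε hfe hdeg N hN hcond⟩

end Pool.Agent.Results.MP_8e9775_nt.ConductorAtMostEight
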