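import Mathlib
import Pool.Agent.H11.Selberg.Defs
import Pool.Agent.H11.SC6.PrimDef
import Pool.Agent.H13.IP.Ph

set_option autoImplicit false

namespace Pool.Agent.Results.MP_8e9775_nt.IntegralCoefficients

open Pool.Agent.H11.Selberg

/-- Let `F` be an element of the Selberg class with the functional equation of an `L`-function of
weight `k ≥ 1`: `Φ(s) = (√N/2π)^s Γ(s + (k-1)/2) F(s)`, with any real `N > 0` and any root number; if
`k = 1` let `F` be primitive.  Suppose that `a(n) n^((k-1)/2) = σ(A(n))`, where the `A(n)` are elements of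
one number field `L` with bounded denominators whose other conjugates grow at most polynomially (nothing
is assumed on conjugates if `L = ℚ`).  Then `S_F(x) = log log x + O(1)`. -/
theorem result :
    ∀ (L : Type) [Field L] [NumberField L] (σ : L →+* ℂ) (A : ℕ → L) (m : ℕ), 1 ≤ m →
    (∀ n : ℕ, 1 ≤ n → IsIntegral ℤ ((m : L) * A n)) →
    (∃ (C : ℝ) (q : ℕ), ∀ τ : L →+* ℂ, τ ≠ σ → ∀ n : ℕ, 1 ≤ n → ‖τ (A n)‖ ≤ C * (n : ℝ) ^ q) →
    ∀ (k : ℕ) (N : ℝ), 1 ≤ k → 0 < N →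
    ∀ (a : ℕ → ℂ) (F : ℂ → ℂ), IsSelberg a F → (k = 1 → IsPrimitive a F) →
    (∀ n : ℕ, 1 ≤ n → σ (A n) = a n * (n : ℂ) ^ (((k : ℂ) - 1) / 2)) →
    ∀ ε : ℂ, ‖ε‖ = 1 →
    (∀ s : ℂ, 0 < s.re → s.re < 1 →
      completed (Real.sqrt N / (2 * Real.pi)) (fun _ : Fin 1 => (1 : ℝ))
          (fun _ => ((k : ℂ) - 1) / 2) F s =
        ε * (starRingEnd ℂ) (completed (Real.sqrt N / (2 * Real.pi)) (fun _ : Fin 1 => (1 : ℝ))
          (fun _ => ((k : ℂ) - 1) / 2) F (1 - (starRingEnd ℂ) s))) →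
    ∃ C : ℝ, ∀ x : ℝ, 2 ≤ x → |S a x - Real.log (Real.log x)| ≤ C := by
  intro L _ _ σ A m hm hA hs k N hk hN a F hS hP ha ε hε hfe
  exact Pool.Agent.H13.IP.main5 σ A m hm hA hs k hk N hN a F hS hP ha ε hε hfe

end Pool.Agent.Results.MP_8e9775_nt.IntegralCoefficients
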