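import Mathlib
import Pool.Agent.H11.Selberg.Defs
import Pool.Agent.H11.SC6.PrimDef
import Pool.Agent.H11.PC.ASM
import Pool.Agent.H11.PC.BDD

set_option autoImplicit false

namespace Pool.Agent.Results.MP_8e9775_nt.PolarDegreeTwo

open Pool.Agent.H11.Selberg

/-- Let `F` be an element of the Selberg class with a pole at `s = 1` which satisfies a functional
equation of degree `2` (any Gamma factors, any real conductor).  If `S_F(x) = O(log log x)`, in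
particular if the `a_F(p)` are bounded, then `F(s) = ζ(s) L(s + iτ, χ)` with a primitive character
`χ` (and `τ = 0` if `χ` is principal).  Hence `S_F(x) - log log x` is unbounded, and if `F` is
primitive then `S_F(x)` is not `O(log log x)` and the `a_F(p)` are unbounded. -/
theorem result :
    ∀ (a : ℕ → ℂ) (F : ℂ → ℂ), IsSelberg a F →
    (¬ ∃ G : ℂ → ℂ, Differentiable ℂ G ∧ ∀ s, s ≠ 1 → G s = F s) →
    ∀ (Q : ℝ) (r : ℕ) (lam : Fin r → ℝ) (mu : Fin r → ℂ) (ε : ℂ),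
    0 < Q → (∀ j, 0 < lam j) → (∀ j, 0 ≤ (mu j).re) → ‖ε‖ = 1 →
    (∀ s : ℂ, 0 < s.re → s.re < 1 →
      completed Q lam mu F s =
        ε * (starRingEnd ℂ) (completed Q lam mu F (1 - (starRingEnd ℂ) s))) →
    2 * ∑ j, lam j = 2 →
    ((∃ C : ℝ, ∀ x : ℝ, 16 ≤ x → S a x ≤ C * Real.log (Real.log x)) ∨
        (∃ K : ℝ, ∀ p : ℕ, p.Prime → ‖a p‖ ≤ K) →
      ¬ IsPrimitive a F ∧
      ∃ (N : ℕ) (_ : NeZero N) (χ : DirichletCharacter ℂ N) (τ : ℝ), χ.IsPrimitive ∧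
        (χ ≠ 1 ∨ (N = 1 ∧ τ = 0)) ∧
        ∀ s : ℂ, 1 < s.re → F s = riemannZeta s * χ.LFunction (s + τ * Complex.I)) ∧
    ¬ ∃ C : ℝ, ∀ x : ℝ, 2 ≤ x → |S a x - Real.log (Real.log x)| ≤ C := by
  intro a F hS hpole Q r lam mu ε hQ hlam hmu hε hfe hdeg
  refine ⟨fun hO => ?_, Pool.Agent.H11.PC.formula_fails a F hS hpole Q r lam mu ε hQ hlam hmu hε hfe
    hdeg⟩
  have hO' : ∃ C : ℝ, ∀ x : ℝ, 16 ≤ x → S a x ≤ C * Real.log (Real.log x) := by
    rcases hO with h | ⟨K, hK⟩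
    · exact h
    · exact Pool.Agent.H11.PC.bounded_S a K hK
  refine ⟨fun hP => Pool.Agent.H11.PC.primitive_fails a F hP hpole Q r lam mu ε hQ hlam hmu hε hfe
    hdeg hO', ?_⟩
  obtain ⟨N, hN, χ, τ, hprim, hχ, hloc⟩ :=
    Pool.Agent.H11.PC.all_primes a F hS hpole Q r lam mu ε hQ hlam hmu hε hfe hdeg hO'
  exact ⟨N, hN, χ, τ, hprim, hχ, Pool.Agent.H11.SC7.factor_zeta_L a F hS χ τ hloc⟩

end Pool.Agent.Results.MP_8e9775_nt.PolarDegreeTwo
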